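import Pool.Agent.Q258.MT.AsmAll

set_option autoImplicit false

/-!
The monotone triangle polynomial at the row `1, ..., i, 1, ..., n`.
-/

namespace Pool.Agent.Results.MP_eb4e27_co.PrefixRepeated

open Pool.Agent.Q258.MT

/-- `A_n`: the number of alternating sign matrices of size `n`. -/
noncomputable def asmNumber (n : ℕ) : ℕ :=
  Nat.card {a : Fin n → Fin n → ℤ // IsASM a}

/-- The sequence `1, ..., i, 1, ..., n + 1` of length `n + i + 1` (positions counted from `0`). -/
def row (n i : ℕ) : Fin (n + i + 1) → ℤ :=
  fun q => if (q : ℕ) < i then (q : ℕ) + 1 else (q : ℕ) - (i : ℤ) + 1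

theorem ofFn_row (n i : ℕ) : List.ofFn (row n i) = up 1 i ++ up 1 (n + 1) := by
  apply ofFn_eq_of_getElem
  · intro q hq
    simp only [row]
    split_ifs with h
    · rw [List.getElem_append_left (by rw [up_length]; exact h), up_getElem]
      ring
    · rw [List.getElem_append_right (by rw [up_length]; omega), up_getElem, up_length]
      rw [Nat.cast_sub (by omega)]
      ring
  · rw [List.length_append, up_length, up_length]
    ring

/-- **The value at `1, ..., i, 1, ..., n`.** For every `n` there is exactly one monotone triangle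
polynomial in `n + 1` variables. For all `n ≥ 0` and `0 ≤ i ≤ n + 1` the value of the monotone triangle
polynomial in `n + 1 + i` variables at `(1, ..., i, 1, ..., n + 1)` is the number of alternating sign
matrices of size `n + 1`. -/
theorem result :
    (∀ n : ℕ, ∃! p : MvPolynomial (Fin (n + 1)) ℚ, IsMTPoly n p) ∧
    ∀ n i : ℕ, i ≤ n + 1 → ∀ p : MvPolynomial (Fin (n + i + 1)) ℚ, IsMTPoly (n + i) p →
      MvPolynomial.eval (fun q => (row n i q : ℚ)) p = asmNumber (n + 1) := by
  refine ⟨existsUnique_mtPoly, fun n i hi p hp => ?_⟩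
  have e : n + i + 1 = i + (n + 1) := by ring
  rw [hp.eval_eq, ofFn_row, asmNumber, asm_total, e, al_kn (n + 1) i hi]

end Pool.Agent.Results.MP_eb4e27_co.PrefixRepeated
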